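import Mathlib

set_option autoImplicit false

/-!
# Non-unicoherence is not invariant under local homeomorphisms

`X` is the union of a round sphere and a thinner spheroid in `ℝ³`, which touch in the two poles.
The antipodal map acts freely on `X`; the quotient `Y` (two projective planes with one common
point) is unicoherent, since every map from it to the circle lifts to the line.
-/

namespace Pool.Agent.J6H44.NonUni

open Set Topology

/-- If every continuous map from a normal space to the circle lifts to the real line, then
the space is unicoherent. -/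
theorem unicoherent_of_lifts {Y : Type} [TopologicalSpace Y] [NormalSpace Y]
    (hlift : ∀ g : Y → Circle, Continuous g → ∃ h : Y → ℝ, Continuous h ∧
      ∀ y, Circle.exp (h y) = g y)
    (A B : Set Y) (hA : IsClosed A) (hB : IsClosed B) (cA : IsPreconnected A)
    (cB : IsPreconnected B) (hAB : A ∪ B = univ) : IsPreconnected (A ∩ B) := by
  by_contra hcon
  rw [isPreconnected_closed_iff] at hcon
  push Not at hcon
  obtain ⟨t, t', ht, ht', hsub, ⟨p, hp⟩, ⟨q, hq⟩, hemp⟩ := hcon
  have hP : IsClosed (A ∩ B ∩ t) := (hA.inter hB).inter ht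
  have hQ : IsClosed (A ∩ B ∩ t') := (hA.inter hB).inter ht'
  have hdisj : Disjoint (A ∩ B ∩ t) (A ∩ B ∩ t') := by
    rw [Set.disjoint_left]
    intro x hx hx'
    have : x ∈ A ∩ B ∩ (t ∩ t') := ⟨hx.1, hx.2, hx'.2⟩
    rw [hemp] at this
    exact this
  obtain ⟨u, hu0, hu1, -⟩ := exists_continuous_zero_one_of_isClosed hP hQ hdisj
  classical
  let g : Y → Circle := fun y => if y ∈ A then Circle.exp (Real.pi * u y)
    else Circle.exp (-(Real.pi * u y))
  have gA : ∀ y ∈ A, g y = Circle.exp (Real.pi * u y) := fun y hy => by simp [g, hy]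
  have hexp : Circle.exp (Real.pi) = Circle.exp (-Real.pi) := by
    rw [Circle.exp_eq_exp]
    exact ⟨1, by ring⟩
  have gB : ∀ y ∈ B, g y = Circle.exp (-(Real.pi * u y)) := by
    intro y hy
    by_cases hyA : y ∈ A
    · rw [gA y hyA]
      rcases hsub ⟨hyA, hy⟩ with h | h
      · have : u y = 0 := hu0 ⟨⟨hyA, hy⟩, h⟩
        simp [this]
      · have : u y = 1 := hu1 ⟨⟨hyA, hy⟩, h⟩
        rw [this, mul_one, hexp]
    · simp [g, hyA]
  have hgc : Continuous g := by
    rw [← continuousOn_univ, ← hAB]
    refine ContinuousOn.union_of_isClosed ?_ ?_ hA hB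
    · refine ContinuousOn.congr (f := fun y => Circle.exp (Real.pi * u y)) ?_ gA
      exact (Circle.exp.continuous.comp (continuous_const.mul u.continuous)).continuousOn
    · refine ContinuousOn.congr (f := fun y => Circle.exp (-(Real.pi * u y))) ?_ gB
      exact (Circle.exp.continuous.comp (continuous_const.mul u.continuous).neg).continuousOn
  obtain ⟨h, hh, hhg⟩ := hlift g hgc
  have up : u p = 0 := hu0 hp
  have uq : u q = 1 := hu1 hq
  have hp0 : Circle.exp (h p) = 1 := by
    rw [hhg, gA p hp.1.1, up]; simp
  have e1 : EqOn h (fun y => Real.pi * u y + h p) A := by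
    refine Circle.isCoveringMap_exp.eqOn_of_comp_eqOn cA hh.continuousOn ?_ ?_ hp.1.1 ?_
    · exact ((continuous_const.mul u.continuous).add continuous_const).continuousOn
    · intro y hy
      simp only [Function.comp_apply]
      rw [hhg, gA y hy, Circle.exp_add, hp0, mul_one]
    · simp [up]
  have e2 : EqOn h (fun y => -(Real.pi * u y) + h p) B := by
    refine Circle.isCoveringMap_exp.eqOn_of_comp_eqOn cB hh.continuousOn ?_ ?_ hp.1.2 ?_
    · exact ((continuous_const.mul u.continuous).neg.add continuous_const).continuousOn
    · intro y hy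
      simp only [Function.comp_apply]
      rw [hhg, gB y hy, Circle.exp_add, hp0, mul_one]
    · simp [up]
  have f1 := e1 hq.1.1
  have f2 := e2 hq.1.2
  simp only [uq] at f1 f2
  have := Real.pi_pos
  linarith

end Pool.Agent.J6H44.NonUni
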