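import Pool.Agent.J6H44.NonUni.Basic

set_option autoImplicit false

/-!
# The two spaces
-/

namespace Pool.Agent.J6H44.NonUni

open Set Topology Real

/-- Equatorial radius of the two spheroids. -/
noncomputable def rad (b : Bool) : ℝ := if b then 1 else 1 / 2

theorem rad_pos (b : Bool) : 0 < rad b := by
  cases b <;> simp [rad]

/-- Parametrisation of the union of the two spheroids. -/
noncomputable def Q (w : Bool × ℝ × ℝ) : ℝ × ℝ × ℝ :=
  (rad w.1 * (sin w.2.1 * cos w.2.2), rad w.1 * (sin w.2.1 * sin w.2.2), cos w.2.1)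

theorem continuous_Q : Continuous Q := by
  have h : Continuous rad := continuous_of_discreteTopology
  unfold Q
  have h1 : Continuous fun w : Bool × ℝ × ℝ => rad w.1 := h.comp continuous_fst
  fun_prop

/-- The Veronese map `v ↦ v vᵀ`, which identifies exactly opposite vectors. -/
def F (v : ℝ × ℝ × ℝ) : ℝ × ℝ × ℝ × ℝ × ℝ × ℝ :=
  (v.1 ^ 2, v.2.1 ^ 2, v.2.2 ^ 2, v.1 * v.2.1, v.2.1 * v.2.2, v.2.2 * v.1)

theorem continuous_F : Continuous F := by
  unfold F
  fun_prop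

theorem F_neg (v : ℝ × ℝ × ℝ) : F (-v) = F v := by
  simp [F]

theorem eq_or_neg_of_F_eq {v v' : ℝ × ℝ × ℝ} (h : F v = F v') : v = v' ∨ v = -v' := by
  obtain ⟨x, y, z⟩ := v
  obtain ⟨x', y', z'⟩ := v'
  simp only [F, Prod.mk.injEq] at h
  obtain ⟨h1, h2, h3, h4, h5, h6⟩ := h
  have hP : (x * x' + y * y' + z * z') ^ 2 = (x ^ 2 + y ^ 2 + z ^ 2) ^ 2 := by
    have : (x * x' + y * y' + z * z') ^ 2 = x ^ 2 * x' ^ 2 + y ^ 2 * y' ^ 2 + z ^ 2 * z' ^ 2 +
        2 * ((x * y) * (x' * y') + (y * z) * (y' * z') + (z * x) * (z' * x')) := by ring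
    rw [this, ← h1, ← h2, ← h3, ← h4, ← h5, ← h6]
    ring
  have hprod : ((x - x') ^ 2 + (y - y') ^ 2 + (z - z') ^ 2) *
      ((x + x') ^ 2 + (y + y') ^ 2 + (z + z') ^ 2) = 0 := by
    have : ((x - x') ^ 2 + (y - y') ^ 2 + (z - z') ^ 2) *
      ((x + x') ^ 2 + (y + y') ^ 2 + (z + z') ^ 2) =
      ((x ^ 2 + y ^ 2 + z ^ 2) + (x' ^ 2 + y' ^ 2 + z' ^ 2)) ^ 2 -
        4 * (x * x' + y * y' + z * z') ^ 2 := by ring
    rw [this, hP, ← h1, ← h2, ← h3]
    ring
  rcases mul_eq_zero.mp hprod with h | h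
  · left
    have b1 := sq_nonneg (x - x')
    have b2 := sq_nonneg (y - y')
    have b3 := sq_nonneg (z - z')
    have a1 : (x - x') ^ 2 = 0 := le_antisymm (by linarith only [h, b1, b2, b3]) b1
    have a2 : (y - y') ^ 2 = 0 := le_antisymm (by linarith only [h, b1, b2, b3]) b2
    have a3 : (z - z') ^ 2 = 0 := le_antisymm (by linarith only [h, b1, b2, b3]) b3
    rw [sq_eq_zero_iff] at a1 a2 a3
    refine Prod.ext ?_ (Prod.ext ?_ ?_) <;> simp <;> linarith
  · right
    have b1 := sq_nonneg (x + x')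
    have b2 := sq_nonneg (y + y')
    have b3 := sq_nonneg (z + z')
    have a1 : (x + x') ^ 2 = 0 := le_antisymm (by linarith only [h, b1, b2, b3]) b1
    have a2 : (y + y') ^ 2 = 0 := le_antisymm (by linarith only [h, b1, b2, b3]) b2
    have a3 : (z + z') ^ 2 = 0 := le_antisymm (by linarith only [h, b1, b2, b3]) b3
    rw [sq_eq_zero_iff] at a1 a2 a3
    refine Prod.ext ?_ (Prod.ext ?_ ?_) <;> simp <;> linarith

theorem Q_antipode (b : Bool) (φ θ : ℝ) : Q (b, φ + π, θ) = -Q (b, φ, θ) := by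
  simp [Q, sin_add_pi, cos_add_pi]

theorem Q_theta (b : Bool) (φ θ : ℝ) : Q (b, φ, θ + 2 * π) = Q (b, φ, θ) := by
  simp [Q]

theorem Q_flip (b : Bool) (φ θ : ℝ) : Q (b, -φ, θ + π) = Q (b, φ, θ) := by
  simp [Q, sin_add_pi, cos_add_pi]

theorem Q_pole (b : Bool) (θ : ℝ) : Q (b, 0, θ) = (0, 0, 1) := by
  simp [Q]

/-- Every point of the image is the image of a point of a fixed compact rectangle. -/
theorem exists_rect (b : Bool) (φ θ : ℝ) :
    ∃ w ∈ Icc (0 : ℝ) π ×ˢ Icc (0 : ℝ) (2 * π), Q (b, w) = Q (b, φ, θ) := by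
  have key : ∀ φ θ : ℝ, 0 ≤ sin φ →
      ∃ w ∈ Icc (0 : ℝ) π ×ˢ Icc (0 : ℝ) (2 * π), Q (b, w) = Q (b, φ, θ) := by
    intro φ θ hs
    refine ⟨(arccos (cos φ), toIcoMod two_pi_pos 0 θ), ⟨⟨arccos_nonneg _, arccos_le_pi _⟩, ?_⟩, ?_⟩
    · have := toIcoMod_mem_Ico two_pi_pos 0 θ
      exact ⟨this.1, by simpa using this.2.le⟩
    · have h1 : cos (toIcoMod two_pi_pos 0 θ) = cos θ := by
        rw [← self_sub_toIcoDiv_zsmul, zsmul_eq_mul, cos_sub_int_mul_two_pi]
      have h2 : sin (toIcoMod two_pi_pos 0 θ) = sin θ := by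
        rw [← self_sub_toIcoDiv_zsmul, zsmul_eq_mul, sin_sub_int_mul_two_pi]
      have h3 : cos (arccos (cos φ)) = cos φ := cos_arccos (neg_one_le_cos _) (cos_le_one _)
      have h4 : sin (arccos (cos φ)) = sin φ := by
        rw [sin_arccos]
        rw [show 1 - cos φ ^ 2 = sin φ ^ 2 by rw [← sin_sq_add_cos_sq φ]; ring]
        exact sqrt_sq hs
      simp only [Q, h1, h2, h3, h4]
  rcases le_total 0 (sin φ) with h | h
  · exact key φ θ h
  · obtain ⟨w, hw, hwQ⟩ := key (-φ) (θ + π) (by rw [sin_neg]; linarith)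
    exact ⟨w, hw, hwQ.trans (Q_flip b φ θ)⟩

/-- The compact set in the domain. -/
def K : Set (Bool × ℝ × ℝ) := univ ×ˢ (Icc (0 : ℝ) π ×ˢ Icc (0 : ℝ) (2 * π))

theorem isCompact_K : IsCompact K :=
  isCompact_univ.prod (isCompact_Icc.prod isCompact_Icc)

theorem quot_of_compact {D Z : Type} [TopologicalSpace D] [TopologicalSpace Z] [T2Space Z]
    (P : D → Z) (hP : Continuous P) (K : Set D) (hK : IsCompact K) (hs : P '' K = univ) :
    IsQuotientMap P := by
  have hsurj : Function.Surjective P := fun z => by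
    obtain ⟨d, -, hd⟩ : z ∈ P '' K := hs ▸ mem_univ z
    exact ⟨d, hd⟩
  rw [isQuotientMap_iff_isClosed]
  refine ⟨hsurj, fun s => ⟨fun h => h.preimage hP, fun h => ?_⟩⟩
  have : s = P '' (K ∩ P ⁻¹' s) := by
    rw [image_inter_preimage, hs, univ_inter]
  rw [this]
  exact ((hK.inter_right h).image hP).isClosed

/-- The locally connected continuum `X`. -/
abbrev X : Type := (range Q : Set (ℝ × ℝ × ℝ))

/-- The quotient `Y`. -/
abbrev Y : Type := (range fun w => F (Q w) : Set (ℝ × ℝ × ℝ × ℝ × ℝ × ℝ))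

/-- The parametrisation of `X`. -/
noncomputable def PX (w : Bool × ℝ × ℝ) : X := ⟨Q w, w, rfl⟩

/-- The parametrisation of `Y`. -/
noncomputable def PY (w : Bool × ℝ × ℝ) : Y := ⟨F (Q w), w, rfl⟩

theorem continuous_PX : Continuous PX := continuous_Q.subtype_mk _

theorem continuous_PY : Continuous PY := (continuous_F.comp continuous_Q).subtype_mk _

theorem PX_image : PX '' K = univ := by
  rw [eq_univ_iff_forall]
  rintro ⟨_, ⟨b, φ, θ⟩, rfl⟩
  obtain ⟨w, hw, hwQ⟩ := exists_rect b φ θ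
  exact ⟨(b, w), ⟨mem_univ _, hw⟩, Subtype.ext hwQ⟩

theorem PY_image : PY '' K = univ := by
  rw [eq_univ_iff_forall]
  rintro ⟨_, ⟨b, φ, θ⟩, rfl⟩
  obtain ⟨w, hw, hwQ⟩ := exists_rect b φ θ
  exact ⟨(b, w), ⟨mem_univ _, hw⟩, Subtype.ext (by simp only [PY, hwQ])⟩

theorem quot_PX : IsQuotientMap PX := quot_of_compact PX continuous_PX K isCompact_K PX_image

theorem quot_PY : IsQuotientMap PY := quot_of_compact PY continuous_PY K isCompact_K PY_image

instance : CompactSpace X := ⟨by rw [← PX_image]; exact isCompact_K.image continuous_PX⟩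

instance : LocallyConnectedSpace X := by
  have : LocallyPathConnectedSpace X := quot_PX.locallyPathConnectedSpace
  infer_instance

/-- The two spheroids as subsets of `X`. -/
def S (b : Bool) : Set X := range fun w : ℝ × ℝ => PX (b, w)

theorem continuous_PXb (b : Bool) : Continuous fun w : ℝ × ℝ => PX (b, w) :=
  continuous_PX.comp (by fun_prop)

theorem isConnected_S (b : Bool) : IsConnected (S b) := isConnected_range (continuous_PXb b)

theorem isClosed_S (b : Bool) : IsClosed (S b) := by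
  have : S b = (fun w : ℝ × ℝ => PX (b, w)) '' (Icc (0 : ℝ) π ×ˢ Icc (0 : ℝ) (2 * π)) := by
    apply Subset.antisymm
    · rintro _ ⟨⟨φ, θ⟩, rfl⟩
      obtain ⟨w, hw, hwQ⟩ := exists_rect b φ θ
      exact ⟨w, hw, Subtype.ext hwQ⟩
    · rintro _ ⟨w, -, rfl⟩
      exact ⟨w, rfl⟩
  rw [this]
  exact ((isCompact_Icc.prod isCompact_Icc).image (continuous_PXb b)).isClosed

theorem S_union : S true ∪ S false = univ := by
  rw [eq_univ_iff_forall]
  rintro ⟨_, ⟨b, φ, θ⟩, rfl⟩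
  cases b
  · right; exact ⟨(φ, θ), rfl⟩
  · left; exact ⟨(φ, θ), rfl⟩

theorem north_eq (b b' : Bool) : PX (b, 0, 0) = PX (b', 0, 0) :=
  Subtype.ext ((Q_pole b 0).trans (Q_pole b' 0).symm)

theorem south_eq (b b' : Bool) : PX (b, π, 0) = PX (b', π, 0) := by
  apply Subtype.ext
  simp [PX, Q]

theorem not_isConnected_inter : ¬ IsConnected (S true ∩ S false) := by
  intro hc
  have hpre : IsPreconnected ((fun x : X => (x : ℝ × ℝ × ℝ).2.2) '' (S true ∩ S false)) :=
    hc.isPreconnected.image _ (by fun_prop)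
  have hN : (1 : ℝ) ∈ (fun x : X => (x : ℝ × ℝ × ℝ).2.2) '' (S true ∩ S false) :=
    ⟨PX (true, 0, 0), ⟨⟨(0, 0), rfl⟩, ⟨(0, 0), north_eq _ _⟩⟩, by simp [PX, Q]⟩
  have hS : (-1 : ℝ) ∈ (fun x : X => (x : ℝ × ℝ × ℝ).2.2) '' (S true ∩ S false) :=
    ⟨PX (true, π, 0), ⟨⟨(π, 0), rfl⟩, ⟨(π, 0), south_eq _ _⟩⟩, by simp [PX, Q]⟩
  obtain ⟨x, ⟨⟨w, hw⟩, ⟨w', hw'⟩⟩, hx⟩ := hpre.Icc_subset hS hN (show (0 : ℝ) ∈ Icc (-1) 1 by simp)
  obtain ⟨φ, θ⟩ := w
  obtain ⟨φ', θ'⟩ := w'
  have e1 : Q (true, φ, θ) = (x : ℝ × ℝ × ℝ) := congrArg Subtype.val hw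
  have e2 : Q (false, φ', θ') = (x : ℝ × ℝ × ℝ) := congrArg Subtype.val hw'
  have e3 : Q (true, φ, θ) = Q (false, φ', θ') := e1.trans e2.symm
  simp only [Q, Prod.mk.injEq, rad] at e3
  obtain ⟨a1, a2, a3⟩ := e3
  have hz : cos φ = 0 := by
    have : (x : ℝ × ℝ × ℝ).2.2 = cos φ := by rw [← e1]; simp [Q]
    rw [← this]; exact hx
  have hz' : cos φ' = 0 := by rw [← a3]; exact hz
  simp only [if_true, one_mul] at a1 a2
  simp only [Bool.false_eq_true, if_false] at a1 a2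
  have s1 := sin_sq_add_cos_sq φ
  have s2 := sin_sq_add_cos_sq φ'
  have t1 := sin_sq_add_cos_sq θ
  have t2 := sin_sq_add_cos_sq θ'
  rw [hz] at s1
  rw [hz'] at s2
  have l1 : (sin φ * cos θ) ^ 2 + (sin φ * sin θ) ^ 2 = 1 := by
    calc (sin φ * cos θ) ^ 2 + (sin φ * sin θ) ^ 2 = (sin φ) ^ 2 * (sin θ ^ 2 + cos θ ^ 2) := by ring
      _ = 1 := by rw [t1]; linarith
  have l2 : (1 / 2 * (sin φ' * cos θ')) ^ 2 + (1 / 2 * (sin φ' * sin θ')) ^ 2 = 1 / 4 := by
    calc (1 / 2 * (sin φ' * cos θ')) ^ 2 + (1 / 2 * (sin φ' * sin θ')) ^ 2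
        = (1 / 4) * ((sin φ') ^ 2 * (sin θ' ^ 2 + cos θ' ^ 2)) := by ring
      _ = 1 / 4 := by rw [t2]; linarith
  rw [a1, a2, l2] at l1
  norm_num at l1

instance : ConnectedSpace X := by
  have h : IsConnected (S true ∪ S false) :=
    IsConnected.union ⟨PX (true, 0, 0), ⟨(0, 0), rfl⟩, ⟨(0, 0), north_eq _ _⟩⟩
      (isConnected_S true) (isConnected_S false)
  rw [S_union] at h
  exact connectedSpace_iff_univ.mpr h

/-- The double cover. -/
def f (x : X) : Y := ⟨F x.1, by obtain ⟨w, hw⟩ := x.2; exact ⟨w, by simp only [hw]⟩⟩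

theorem continuous_f : Continuous f := (continuous_F.comp continuous_subtype_val).subtype_mk _

theorem surjective_f : Function.Surjective f := by
  rintro ⟨_, w, rfl⟩
  exact ⟨PX w, rfl⟩

theorem quot_f : IsQuotientMap f :=
  quot_of_compact f continuous_f univ isCompact_univ (by rw [image_univ, surjective_f.range_eq])

/-- The antipodal map on `X`. -/
def negX (x : X) : X := ⟨-x.1, by
  obtain ⟨⟨b, φ, θ⟩, hw⟩ := x.2
  exact ⟨(b, φ + π, θ), by rw [Q_antipode, hw]⟩⟩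

theorem continuous_negX : Continuous negX := (continuous_subtype_val.neg).subtype_mk _

theorem f_negX (x : X) : f (negX x) = f x := Subtype.ext (F_neg _)

theorem eq_or_negX {x x' : X} (h : f x = f x') : x = x' ∨ x = negX x' := by
  rcases eq_or_neg_of_F_eq (congrArg Subtype.val h) with h | h
  · exact Or.inl (Subtype.ext h)
  · exact Or.inr (Subtype.ext h)

theorem isOpenMap_f : IsOpenMap f := by
  intro U hU
  rw [← quot_f.isOpen_preimage]
  have : f ⁻¹' (f '' U) = U ∪ negX ⁻¹' U := by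
    ext x
    constructor
    · rintro ⟨u, hu, hux⟩
      rcases eq_or_negX hux with h | h
      · left; rwa [← h]
      · right
        show negX x ∈ U
        rwa [← h]
    · rintro (h | h)
      · exact ⟨x, h, rfl⟩
      · exact ⟨negX x, h, f_negX x⟩
  rw [this]
  exact hU.union (hU.preimage continuous_negX)

/-- The bilinear form. -/
def ip (x y : X) : ℝ := x.1.1 * y.1.1 + x.1.2.1 * y.1.2.1 + x.1.2.2 * y.1.2.2

theorem ip_self_pos (x : X) : 0 < ip x x := by
  obtain ⟨_, ⟨b, φ, θ⟩, rfl⟩ := x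
  simp only [ip, Q]
  have hr := rad_pos b
  have s1 := sin_sq_add_cos_sq φ
  have t1 := sin_sq_add_cos_sq θ
  have e : rad b * (sin φ * cos θ) * (rad b * (sin φ * cos θ)) +
      rad b * (sin φ * sin θ) * (rad b * (sin φ * sin θ)) + cos φ * cos φ =
      rad b ^ 2 * (sin φ ^ 2 * (sin θ ^ 2 + cos θ ^ 2)) + cos φ ^ 2 := by ring
  rw [e, t1, mul_one]
  by_cases hc : cos φ = 0
  · rw [hc] at s1 ⊢
    have : sin φ ^ 2 = 1 := by linarith
    rw [this]
    positivity
  · positivity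

theorem isLocalHomeomorph_f : IsLocalHomeomorph f := by
  rw [isLocalHomeomorph_iff_isOpenEmbedding_restrict]
  intro x
  let U : Set X := {y | 0 < ip x y}
  have hU : IsOpen U := by
    have : Continuous fun y : X => ip x y := by
      unfold ip
      fun_prop
    exact isOpen_lt continuous_const this
  refine ⟨U, hU.mem_nhds (ip_self_pos x), ?_⟩
  refine IsOpenEmbedding.of_continuous_injective_isOpenMap ?_ ?_ ?_
  · exact continuous_f.comp continuous_subtype_val
  · rintro ⟨y, hy⟩ ⟨y', hy'⟩ hyy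
    have hyy' : f y = f y' := hyy
    rcases eq_or_negX hyy' with h | h
    · exact Subtype.ext h
    · exfalso
      have h1 : 0 < ip x y := hy
      have h2 : 0 < ip x y' := hy'
      rw [h] at h1
      simp only [ip, negX, Prod.fst_neg, Prod.snd_neg] at h1 h2
      linarith
  · exact isOpenMap_f.comp hU.isOpenMap_subtype_val

end Pool.Agent.J6H44.NonUni
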