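import Pool.Agent.J6H44.NonUni.Geom

set_option autoImplicit false

/-!
# Every map from `Y` to the circle lifts
-/

namespace Pool.Agent.J6H44.NonUni

open Set Topology Real

theorem lift_props {G : ℝ × ℝ → Circle} {H : ℝ × ℝ → ℝ} (hH : Continuous H)
    (hHG : ∀ w, Circle.exp (H w) = G w)
    (g1 : ∀ θ, G (0, θ) = G (0, 0)) (g2 : ∀ φ θ, G (φ, θ + 2 * π) = G (φ, θ))
    (g3 : ∀ φ θ, G (-φ, θ + π) = G (φ, θ)) (g4 : ∀ φ θ, G (φ + π, θ) = G (φ, θ)) :
    (∀ θ, H (0, θ) = H (0, 0)) ∧ (∀ φ θ, H (φ, θ + 2 * π) = H (φ, θ)) ∧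
    (∀ φ θ, H (-φ, θ + π) = H (φ, θ)) ∧ (∀ φ θ, H (φ + π, θ) = H (φ, θ)) := by
  have cov := Circle.isCoveringMap_exp
  have h1 : ∀ θ, H (0, θ) = H (0, 0) := by
    have := cov.eq_of_comp_eq (g₁ := fun θ : ℝ => H (0, θ)) (g₂ := fun _ : ℝ => H (0, 0))
      (hH.comp (by fun_prop)) continuous_const
      (by funext θ; simp only [Function.comp_apply]; rw [hHG, hHG, g1]) 0 rfl
    exact fun θ => congrFun this θ
  have h2 : ∀ φ θ, H (φ, θ + 2 * π) = H (φ, θ) := by
    have := cov.eq_of_comp_eq (g₁ := fun w : ℝ × ℝ => H (w.1, w.2 + 2 * π)) (g₂ := H)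
      (hH.comp (by fun_prop)) hH
      (by funext w; simp only [Function.comp_apply]; rw [hHG, hHG, g2]) (0, 0)
      (by simp only [zero_add]; exact h1 _)
    exact fun φ θ => congrFun this (φ, θ)
  have h3 : ∀ φ θ, H (-φ, θ + π) = H (φ, θ) := by
    have := cov.eq_of_comp_eq (g₁ := fun w : ℝ × ℝ => H (-w.1, w.2 + π)) (g₂ := H)
      (hH.comp (by fun_prop)) hH
      (by funext w; simp only [Function.comp_apply]; rw [hHG, hHG, g3]) (0, 0)
      (by simp only [zero_add, neg_zero]; exact h1 _)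
    exact fun φ θ => congrFun this (φ, θ)
  have h4' : ∀ φ θ, H (φ + π, θ) = H (φ, θ) + (H (π, 0) - H (0, 0)) := by
    have hc : Circle.exp (H (π, 0) - H (0, 0)) = 1 := by
      rw [Circle.exp_sub, hHG, hHG]
      have := g4 0 0
      rw [zero_add] at this
      rw [this, div_self']
    have := cov.eq_of_comp_eq (g₁ := fun w : ℝ × ℝ => H (w.1 + π, w.2))
      (g₂ := fun w => H w + (H (π, 0) - H (0, 0)))
      (hH.comp (by fun_prop)) (hH.add continuous_const)
      (by funext w; simp only [Function.comp_apply]; rw [hHG, Circle.exp_add, hHG, hc, mul_one, g4])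
      (0, 0) (by simp)
    exact fun φ θ => congrFun this (φ, θ)
  refine ⟨h1, h2, h3, fun φ θ => ?_⟩
  have e1 := h4' φ θ
  have e2 := h4' (-(φ + π)) (θ + π)
  have e3 := h3 φ θ
  have e4 := h3 (φ + π) θ
  have e5 : -(φ + π) + π = -φ := by ring
  rw [e5] at e2
  rw [e3, e4] at e2
  linarith

theorem factor_aux {H : Bool → ℝ × ℝ → ℝ} {a : ℝ}
    (h1 : ∀ b θ, H b (0, θ) = a) (h2 : ∀ b φ θ, H b (φ, θ + 2 * π) = H b (φ, θ))
    (h3 : ∀ b φ θ, H b (-φ, θ + π) = H b (φ, θ)) (h4 : ∀ b φ θ, H b (φ + π, θ) = H b (φ, θ))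
    {b b' : Bool} {φ θ φ' θ' : ℝ} (h : F (Q (b, φ, θ)) = F (Q (b', φ', θ'))) :
    H b (φ, θ) = H b' (φ', θ') := by
  have per : ∀ b θ, Function.Periodic (fun φ => H b (φ, θ)) π := fun b θ φ => h4 b φ θ
  have perth : ∀ b φ, Function.Periodic (fun θ => H b (φ, θ)) (2 * π) := fun b φ θ => h2 b φ θ
  -- same angle
  have same : ∀ (φ θ θ' : ℝ), Q (b, φ, θ) = Q (b', φ, θ') → H b (φ, θ) = H b' (φ, θ') := by
    intro φ θ θ' hQ
    by_cases hs : sin φ = 0
    · obtain ⟨n, hn⟩ := sin_eq_zero_iff.mp hs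
      have k1 : ∀ b θ, H b (φ, θ) = a := by
        intro b θ
        have := (per b θ).int_mul n 0
        simp only [zero_add, hn] at this
        rw [this, h1]
      rw [k1, k1]
    · simp only [Q, Prod.mk.injEq] at hQ
      obtain ⟨q1, q2, -⟩ := hQ
      have hb := rad_pos b
      have hb' := rad_pos b'
      have hrad : rad b = rad b' := by
        have t1 := sin_sq_add_cos_sq θ
        have t2 := sin_sq_add_cos_sq θ'
        have l1 : rad b ^ 2 * sin φ ^ 2 = rad b' ^ 2 * sin φ ^ 2 := by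
          calc rad b ^ 2 * sin φ ^ 2 = rad b ^ 2 * sin φ ^ 2 * (sin θ ^ 2 + cos θ ^ 2) := by
                rw [t1, mul_one]
            _ = (rad b * (sin φ * cos θ)) ^ 2 + (rad b * (sin φ * sin θ)) ^ 2 := by ring
            _ = (rad b' * (sin φ * cos θ')) ^ 2 + (rad b' * (sin φ * sin θ')) ^ 2 := by rw [q1, q2]
            _ = rad b' ^ 2 * sin φ ^ 2 * (sin θ' ^ 2 + cos θ' ^ 2) := by ring
            _ = rad b' ^ 2 * sin φ ^ 2 := by rw [t2, mul_one]
        have l2 : rad b ^ 2 = rad b' ^ 2 := mul_right_cancel₀ (pow_ne_zero 2 hs) l1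
        exact (pow_left_inj₀ hb.le hb'.le two_ne_zero).mp l2
      have hbb : b = b' := by
        cases b <;> cases b' <;> simp [rad] at hrad ⊢
      subst hbb
      have c1 : cos θ = cos θ' := mul_left_cancel₀ hs (mul_left_cancel₀ hb.ne' q1)
      have c2 : sin θ = sin θ' := mul_left_cancel₀ hs (mul_left_cancel₀ hb.ne' q2)
      have c3 := Real.Angle.cos_sin_inj c1 c2
      rw [Real.Angle.angle_eq_iff_two_pi_dvd_sub] at c3
      obtain ⟨k, hk⟩ := c3
      have : θ = θ' + k * (2 * π) := by linarith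
      rw [this]
      exact (perth b φ).int_mul k θ'
  -- equal points
  have main : ∀ (φ θ φ' θ' : ℝ), Q (b, φ, θ) = Q (b', φ', θ') →
      H b (φ, θ) = H b' (φ', θ') := by
    intro φ θ φ' θ' hQ
    have hc : cos φ = cos φ' := by
      have := congrArg (fun v : ℝ × ℝ × ℝ => v.2.2) hQ
      simpa [Q] using this
    have perQ : ∀ (n : ℤ) (φ θ : ℝ), Q (b', 2 * n * π + φ, θ) = Q (b', φ, θ) := by
      intro n φ θ
      have e : 2 * (n : ℝ) * π + φ = φ + n * (2 * π) := by ring
      simp only [Q, e, sin_add_int_mul_two_pi, cos_add_int_mul_two_pi]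
    have perH : ∀ (n : ℤ) (φ θ : ℝ), H b' (2 * n * π + φ, θ) = H b' (φ, θ) := by
      intro n φ θ
      have e : 2 * (n : ℝ) * π + φ = φ + ((2 * n : ℤ) : ℝ) * π := by push_cast; ring
      rw [e]
      exact (per b' θ).int_mul (2 * n) φ
    rcases cos_eq_cos_iff.mp hc with ⟨k, hk | hk⟩
    · rw [hk, perH]
      rw [hk, perQ] at hQ
      exact same φ θ θ' hQ
    · have hk' : φ' = 2 * k * π + -φ := by rw [hk]; ring
      rw [hk', perH]
      rw [hk', perQ] at hQ
      have e : θ' = (θ' - π) + π := by ring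
      rw [e, h3]
      rw [e, Q_flip] at hQ
      exact same φ θ (θ' - π) hQ
  rcases eq_or_neg_of_F_eq h with hQ | hQ
  · exact main φ θ φ' θ' hQ
  · rw [← Q_antipode] at hQ
    rw [main _ _ _ _ hQ, h4]

theorem lift_Y (g : Y → Circle) (hg : Continuous g) :
    ∃ h : Y → ℝ, Continuous h ∧ ∀ y, Circle.exp (h y) = g y := by
  let G : Bool → C(ℝ × ℝ, Circle) := fun b =>
    ⟨fun w => g (PY (b, w)), hg.comp (continuous_PY.comp (by fun_prop))⟩
  obtain ⟨a, ha⟩ : ∃ a : ℝ, Circle.exp a = g (PY (true, 0, 0)) :=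
    ⟨_, Circle.exp_arg (g (PY (true, 0, 0)))⟩
  have hpole : ∀ b θ, PY (b, 0, θ) = PY (true, 0, 0) := by
    intro b θ
    apply Subtype.ext
    simp only [PY, Q_pole]
  have hex : ∀ b, ∃ H : C(ℝ × ℝ, ℝ), H (0, 0) = a ∧ Circle.exp ∘ H = G b := by
    intro b
    have := Circle.isCoveringMap_exp.existsUnique_continuousMap_lifts (G b) (0, 0) a
      (by rw [ha]; simp only [G, ContinuousMap.coe_mk]; rw [hpole b 0])
    exact this.exists
  choose H hH0 hHG using hex
  have hHG' : ∀ b w, Circle.exp (H b w) = G b w := fun b w => congrFun (hHG b) w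
  have props : ∀ b, _ := fun b => lift_props (H b).continuous (hHG' b)
    (fun θ => by simp only [G, ContinuousMap.coe_mk]; rw [hpole b θ, hpole b 0])
    (fun φ θ => by
      simp only [G, ContinuousMap.coe_mk]
      congr 1
      apply Subtype.ext
      simp only [PY, Q_theta])
    (fun φ θ => by
      simp only [G, ContinuousMap.coe_mk]
      congr 1
      apply Subtype.ext
      simp only [PY, Q_flip])
    (fun φ θ => by
      simp only [G, ContinuousMap.coe_mk]
      congr 1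
      apply Subtype.ext
      simp only [PY, Q_antipode, F_neg])
  have fac : ∀ w w' : Bool × ℝ × ℝ, PY w = PY w' → H w.1 w.2 = H w'.1 w'.2 := by
    rintro ⟨b, φ, θ⟩ ⟨b', φ', θ'⟩ h
    exact factor_aux (H := fun b w => H b w) (a := a)
      (fun b θ => ((props b).1 θ).trans (hH0 b)) (fun b => (props b).2.1)
      (fun b => (props b).2.2.1) (fun b => (props b).2.2.2) (congrArg Subtype.val h)
  let Ht : C(Bool × ℝ × ℝ, ℝ) := ⟨fun w => H w.1 w.2, by
    rw [continuous_prod_of_discrete_left]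
    intro b
    exact (H b).continuous⟩
  let PYc : C(Bool × ℝ × ℝ, Y) := ⟨PY, continuous_PY⟩
  have hq : IsQuotientMap PYc := quot_PY
  have fac' : Function.FactorsThrough Ht PYc := fun w w' hw => fac w w' hw
  refine ⟨hq.lift Ht fac', (hq.lift Ht fac').continuous, ?_⟩
  intro y
  obtain ⟨w, rfl⟩ := hq.surjective y
  have : hq.lift Ht fac' (PYc w) = Ht w :=
    congrArg (fun k : C(Bool × ℝ × ℝ, ℝ) => k w) (hq.lift_comp Ht fac')
  rw [this]
  exact hHG' w.1 w.2

theorem unicoherent_Y (A B : Set Y) (hA : IsClosed A) (hB : IsClosed B) (cA : IsConnected A)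
    (cB : IsConnected B) (hAB : A ∪ B = univ) : IsConnected (A ∩ B) := by
  have hY : PreconnectedSpace Y := by
    have : IsPreconnected (range f) := isPreconnected_range continuous_f
    rw [surjective_f.range_eq] at this
    exact ⟨this⟩
  refine ⟨?_, unicoherent_of_lifts lift_Y A B hA hB cA.isPreconnected cB.isPreconnected hAB⟩
  have := (isPreconnected_closed_iff.mp hY.isPreconnected_univ) A B hA hB hAB.ge
    (by rw [univ_inter]; exact cA.nonempty) (by rw [univ_inter]; exact cB.nonempty)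
  rwa [univ_inter] at this

end Pool.Agent.J6H44.NonUni
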